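import Pool.Agent.Helper24.ON.H80.LL.Key

set_option autoImplicit false

/-!
MP_120218_co, theorem LL.
-/

open Finset
open Pool.Agent.Helper84.SP

namespace Pool.Agent.Helper80.LL

theorem Top_card_hsum_succ {A : Finset ℤ} (hA : A.Nonempty) (h : ℕ) :
    (hsum A h).card ≤ (hsum A (h + 1)).card := by
  obtain ⟨a, ha⟩ := hA
  apply card_le_card_of_injOn (fun s => s + a)
  · intro s hs
    exact hsum_succ hs ha
  · intro x _ y _ hxy
    exact add_right_cancel hxy

theorem Top_card_le_hsum {A : Finset ℤ} (hA : A.Nonempty) {h : ℕ} (hh : 1 ≤ h) :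
    A.card ≤ (hsum A h).card := by
  have h1 : A.card ≤ (hsum A 1).card := by
    apply card_le_card_of_injOn (fun y => (0 : ℤ) + y)
    · intro y hy
      have h0 : (0 : ℤ) ∈ hsum A 0 := by
        unfold hsum
        refine mem_image.2 ⟨fun i => i.elim0, ?_, by simp⟩
        rw [Fintype.mem_piFinset]
        intro i
        exact i.elim0
      exact hsum_succ h0 hy
    · intro x _ y _ hxy
      exact add_left_cancel hxy
  exact h1.trans (monotone_nat_of_le_succ (f := fun j => (hsum A j).card)
    (fun j => Top_card_hsum_succ hA j) hh)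

theorem Top_log_four : Real.log 4 = 2 * Real.log 2 := by
  have : (4 : ℝ) = 2 ^ 2 := by norm_num
  rw [this, Real.log_pow]
  norm_num

/-- `log h ≤ 2 n log 2` for `n = ⌊log₂ h⌋` -/
theorem Top_log_le {h : ℕ} (hh : 1 ≤ h) : Real.log h ≤ 2 * (Nat.log 2 h : ℝ) * Real.log 2 := by
  rcases Nat.eq_zero_or_pos (Nat.log 2 h) with hn | hn
  · have h1 : h < 2 := by
      by_contra hc
      push Not at hc
      have := Nat.log_pos (b := 2) (by norm_num) hc
      omega
    have h2 : h = 1 := by omega
    subst h2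
    simp
  · have h1 : h < 2 ^ (Nat.log 2 h + 1) := Nat.lt_pow_succ_log_self (by norm_num) h
    have h2 : (h : ℝ) ≤ (2 : ℝ) ^ (Nat.log 2 h + 1) := by exact_mod_cast h1.le
    have h3 : Real.log h ≤ Real.log ((2 : ℝ) ^ (Nat.log 2 h + 1)) :=
      Real.log_le_log (by exact_mod_cast hh) h2
    rw [Real.log_pow] at h3
    have h4 : (1 : ℝ) ≤ (Nat.log 2 h : ℝ) := by exact_mod_cast hn
    have h6 : 0 < Real.log 2 := Real.log_pos (by norm_num)
    push_cast at h3
    nlinarith only [h4, h6, h3]

/-- the numbers in the product bound -/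
theorem Top_prod_num {C CS k s s' L L' P : ℝ} (hC : 1 ≤ C) (hCS : 0 ≤ CS) (hk : 2 ≤ k)
    (hs' : 0 ≤ s') (hL : 4 * Real.log 2 ≤ L) (hL' : L ≤ L' + Real.log 4) (hLL : L' ≤ L)
    (hss : s ≤ s' + CS / Real.log (2 + L'))
    (hP : k * L' ≤ P + C * k * Real.log k * (s + 1 / Real.log (2 + L')) * L') :
    k * L ≤ P + (2 * C * (CS + 1) + 2) * k * Real.log k * (s' + 1 / Real.log L) * L := by
  have l2 := Real.log_two_gt_d9
  have l2' := Real.log_two_lt_d9
  have h4 := Top_log_four
  have hL0 : 0 < L := by linarith only [hL, l2]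
  have hL1 : (2 : ℝ) < L := by linarith only [hL, l2]
  have hL'0 : 0 < L' := by linarith only [hL, hL', l2, h4]
  have hlogL : 0 < Real.log L := Real.log_pos (by linarith only [hL1])
  have hlogk : Real.log 2 ≤ Real.log k := Real.log_le_log (by norm_num) hk
  have hlogk0 : 0 < Real.log k := by linarith only [l2, hlogk]
  have hlL : Real.log L ≤ L := (Real.log_le_sub_one_of_pos hL0).trans (by linarith only [])
  -- `log (2 + L') ≥ log L / 2`
  have e1 : Real.log L ≤ 2 * Real.log (2 + L') := by
    have h1 : Real.log L ≤ Real.log ((2 + L') ^ 2) := by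
      apply Real.log_le_log hL0
      nlinarith only [hL', l2', h4]
    rwa [Real.log_pow, Nat.cast_ofNat] at h1
  have e0 : 0 < Real.log (2 + L') := by linarith only [hlogL, e1]
  have e2 : 1 / Real.log (2 + L') ≤ 2 * (1 / Real.log L) := by
    rw [div_le_iff₀ e0]
    have : 2 * (1 / Real.log L) * Real.log (2 + L') = 2 * Real.log (2 + L') / Real.log L := by
      ring
    rw [this, le_div_iff₀ hlogL]
    linarith only [e1]
  obtain ⟨u, hu⟩ : ∃ u, u = 1 / Real.log (2 + L') := ⟨_, rfl⟩
  obtain ⟨v, hv⟩ : ∃ v, v = 1 / Real.log L := ⟨_, rfl⟩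
  have hu0 : 0 < u := by rw [hu]; positivity
  have hv0 : 0 < v := by rw [hv]; positivity
  have hvL : 1 ≤ v * L := by
    rw [hv]
    have : 1 / Real.log L * L = L / Real.log L := by ring
    rw [this, le_div_iff₀ hlogL]
    linarith only [hlL]
  have hss' : s ≤ s' + CS * u := by
    rw [hu]
    refine hss.trans (le_of_eq ?_)
    ring
  rw [← hu, ← hv] at e2
  rw [← hu] at hP
  rw [← hv]
  have e3 : (s + u) * L' ≤ (s' + 2 * (CS + 1) * v) * L := by
    have h1 : s + u ≤ s' + 2 * (CS + 1) * v := by nlinarith only [hCS, e2, hss']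
    calc (s + u) * L' ≤ (s' + 2 * (CS + 1) * v) * L' :=
          mul_le_mul_of_nonneg_right h1 hL'0.le
      _ ≤ (s' + 2 * (CS + 1) * v) * L := by
          apply mul_le_mul_of_nonneg_left hLL
          positivity
  have e4 : k * Real.log 4 ≤ 2 * k * Real.log k * (v * L) := by
    rw [h4]
    have h1 : k * (2 * Real.log 2) ≤ 2 * k * Real.log k := by nlinarith only [hk, hlogk]
    have h2 : 2 * k * Real.log k * 1 ≤ 2 * k * Real.log k * (v * L) := by
      apply mul_le_mul_of_nonneg_left hvL
      positivity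
    linarith only [h1, h2]
  have e5 : C * k * Real.log k * (s + u) * L' ≤
      C * k * Real.log k * ((s' + 2 * (CS + 1) * v) * L) := by
    have h1 : C * k * Real.log k * (s + u) * L' = C * k * Real.log k * ((s + u) * L') := by ring
    rw [h1]
    apply mul_le_mul_of_nonneg_left e3
    positivity
  have e6 : k * L ≤ k * L' + k * Real.log 4 := by nlinarith only [hk, hL']
  have e7 : (2 * C * (CS + 1) + 2) * k * Real.log k * (s' + v) * L =
      C * k * Real.log k * ((s' + 2 * (CS + 1) * v) * L) + 2 * k * Real.log k * (v * L) +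
        (C * (2 * CS + 1) + 2) * k * Real.log k * s' * L := by ring
  have e8 : 0 ≤ (C * (2 * CS + 1) + 2) * k * Real.log k * s' * L := by positivity
  linarith only [hP, e4, e5, e6, e8]

/-- the numbers in the sum bound -/
theorem Top_sum_num {c s L L' S n lh : ℝ} (hc : 0 < c) (hs : 8 / c ≤ s * Real.log (2 + L'))
    (hL : 4 * Real.log 2 ≤ L) (hL' : L ≤ L' + Real.log 4) (hn : 1 ≤ n)
    (hlh : lh ≤ 2 * n * Real.log 2)
    (hS : (1 + c * s * n) * L' ≤ S) : (1 + c / 8 * s * lh) * L ≤ S := by
  have l2 := Real.log_two_gt_d9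
  have l2' := Real.log_two_lt_d9
  have h4 := Top_log_four
  have hL'1 : 1 < L' := by linarith only [hL, hL', l2, h4]
  have hL'2 : Real.log 4 ≤ L' := by linarith only [hL, hL', h4]
  have e1 : Real.log (2 + L') ≤ 2 * L' := by
    have := Real.log_le_sub_one_of_pos (show (0 : ℝ) < 2 + L' by linarith only [hL'1])
    linarith only [hL'1, this]
  have e0 : 0 < Real.log (2 + L') := Real.log_pos (by linarith only [hL'1])
  have hs0 : 0 < s := by
    by_contra hcon
    push Not at hcon
    have h1 : s * Real.log (2 + L') ≤ 0 := mul_nonpos_of_nonpos_of_nonneg hcon e0.le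
    have h2 : 0 < 8 / c := by positivity
    linarith only [hs, h1, h2]
  have hs2 : 4 ≤ c * s * L' := by
    have h1 : 8 / c ≤ s * (2 * L') := hs.trans (mul_le_mul_of_nonneg_left e1 hs0.le)
    rw [div_le_iff₀ hc] at h1
    linarith only [h1]
  obtain ⟨Y, hY⟩ : ∃ Y, Y = c * s * n * L' := ⟨_, rfl⟩
  have hY4 : 4 ≤ Y := by
    rw [hY]
    have : c * s * n * L' = (c * s * L') * n := by ring
    rw [this]
    nlinarith only [hn, hs2]
  have e2 : c / 8 * s * lh * L ≤ Real.log 2 / 2 * Y := by
    rw [hY]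
    calc c / 8 * s * lh * L ≤ c / 8 * s * (2 * n * Real.log 2) * L := by
          apply mul_le_mul_of_nonneg_right _ (by linarith only [hL, l2])
          apply mul_le_mul_of_nonneg_left hlh (by positivity)
      _ ≤ c / 8 * s * (2 * n * Real.log 2) * (2 * L') := by
          apply mul_le_mul_of_nonneg_left _ (by positivity)
          linarith only [hL', hL'2]
      _ = _ := by ring
  have e3 : (1 + c / 8 * s * lh) * L = L + c / 8 * s * lh * L := by ring
  have e4 : (1 + c * s * n) * L' = L' + Y := by rw [hY]; ring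
  rw [e4] at hS
  rw [e3]
  nlinarith only [hL', l2', h4, hS, hY4, e2]

/-- the first part in logarithmic form -/
theorem Top_main : ∃ c C : ℝ, 0 < c ∧ 0 < C ∧ ∀ A : Finset ℤ, 16 ≤ A.card →
    ∃ s : ℝ, 0 ≤ s ∧
      (∀ k : ℕ, 2 ≤ k → k * Real.log A.card ≤ Real.log (kprod A k).card +
        C * k * Real.log k * (s + 1 / Real.log (Real.log A.card)) * Real.log A.card) ∧
      ∀ h : ℕ, 1 ≤ h → (h : ℝ) ≤ Real.log A.card →
        (1 + c * s * Real.log h) * Real.log A.card ≤ Real.log (hsum A h).card := by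
  obtain ⟨c, C, hc, hC, hpos⟩ := posLL
  refine ⟨c / 8, 2 * C * (8 / c + 1) + 2, by positivity, by positivity, ?_⟩
  intro A hA16
  have hA : A.Nonempty := card_pos.1 (by omega)
  have h0 : (0 : ℤ) ∉ A.erase 0 := by simp
  obtain ⟨A', e, hA'pos, he, hA', hcard⟩ := signed (A.erase 0) h0
  have hcard1 : A.card ≤ (A.erase 0).card + 1 := by
    have := pred_card_le_card_erase (s := A) (a := (0 : ℤ))
    omega
  have hcard2 : A.card ≤ 4 * A'.card := by omega
  have hcard2' : (A.card : ℝ) ≤ 4 * A'.card := by exact_mod_cast hcard2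
  have hcard4 : 4 ≤ A'.card := by omega
  have hA'ne : A'.Nonempty := card_pos.1 (by omega)
  have hA'' : ∀ y ∈ A', e * (y : ℤ) ∈ A := fun y hy => (mem_erase.1 (hA' y hy)).2
  have pA : (0 : ℝ) < A.card := by exact_mod_cast card_pos.2 hA
  have pA' : (0 : ℝ) < A'.card := by exact_mod_cast card_pos.2 hA'ne
  have hA'le : A'.card ≤ A.card := by
    apply card_le_card_of_injOn (fun y : ℕ => e * (y : ℤ)) (fun y hy => hA'' y hy)
    intro x _ y _ hxy
    have he0 : e ≠ 0 := by
      rcases he with rfl | rfl <;> norm_num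
    exact_mod_cast mul_left_cancel₀ he0 hxy
  obtain ⟨L, hLdef⟩ : ∃ L, L = Real.log A.card := ⟨_, rfl⟩
  obtain ⟨L', hL'def⟩ : ∃ L', L' = Real.log A'.card := ⟨_, rfl⟩
  have hLL : L' ≤ L := by
    rw [hLdef, hL'def]
    exact Real.log_le_log pA' (by exact_mod_cast hA'le)
  have hL' : L ≤ L' + Real.log 4 := by
    rw [hLdef, hL'def, ← Real.log_mul pA'.ne' (by norm_num)]
    apply Real.log_le_log pA
    linarith only [hcard2']
  have hL : 4 * Real.log 2 ≤ L := by
    have h16 : 4 * Real.log 2 = Real.log 16 := by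
      have : (16 : ℝ) = 2 ^ 4 := by norm_num
      rw [this, Real.log_pow]
      norm_num
    rw [h16, hLdef]
    apply Real.log_le_log (by norm_num)
    exact_mod_cast hA16
  obtain ⟨s, hs0, hprod, -, hsum'⟩ := hpos A' hcard4 hA'pos
  rw [← hL'def] at hprod hsum'
  rw [← hLdef]
  have l2 := Real.log_two_gt_d9
  have l2' := Real.log_two_lt_d9
  have h4 := Top_log_four
  have hL'1 : 1 < L' := by linarith only [hL', hL, l2, h4]
  have elog : 0 < Real.log (2 + L') := Real.log_pos (by linarith only [hL'1])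
  have t1 : ∀ h, Real.log (it al A' h).card ≤ Real.log (hsum A h).card := by
    intro h
    apply Real.log_le_log
    · exact_mod_cast card_pos.2 (it_nonempty hA'ne h)
    · exact_mod_cast it_al_card he hA'' h
  have t2 : ∀ k, Real.log (it be A' k).card ≤ Real.log (kprod A k).card := by
    intro k
    apply Real.log_le_log
    · exact_mod_cast card_pos.2 (it_nonempty hA'ne k)
    · exact_mod_cast it_be_card he hA'pos hA'' k
  have triv : ∀ h : ℕ, 1 ≤ h → L ≤ Real.log (hsum A h).card := by
    intro h hh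
    rw [hLdef]
    exact Real.log_le_log pA (by exact_mod_cast Top_card_le_hsum hA hh)
  by_cases hcase : 8 / c ≤ s * Real.log (2 + L')
  · refine ⟨s, hs0, ?_, ?_⟩
    · intro k hk
      apply Top_prod_num (s := s) hC (by positivity) (by exact_mod_cast hk) hs0 hL hL' hLL
      · have : 0 ≤ 8 / c / Real.log (2 + L') := by positivity
        linarith only [this]
      · have := hprod k hk
        have := t2 k
        linarith
    · intro h hh hhL
      by_cases h1 : h = 1
      · subst h1
        have := triv 1 le_rfl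
        simpa using this
      have hn1 : 1 ≤ Nat.log 2 h := Nat.log_pos (by norm_num) (by omega)
      have hpw : 2 ^ Nat.log 2 h ≤ h := Nat.pow_log_le_self 2 (by omega)
      have hpw' : ((2 : ℝ)) ^ Nat.log 2 h ≤ h := by exact_mod_cast hpw
      have hk1 := hsum' (Nat.log 2 h) (by nlinarith only [hL', hL, h4, hhL, hpw'])
      have hmono : Real.log (it al A' (2 ^ Nat.log 2 h)).card ≤ Real.log (it al A' h).card := by
        apply Real.log_le_log
        · exact_mod_cast card_pos.2 (it_nonempty hA'ne _)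
        · exact_mod_cast it_mono hA'ne hpw
      have := t1 h
      exact Top_sum_num (n := (Nat.log 2 h : ℝ)) hc hcase hL hL' (by exact_mod_cast hn1)
        (Top_log_le hh) (by linarith only [hk1, hmono, this])
  · push Not at hcase
    refine ⟨0, le_rfl, ?_, ?_⟩
    · intro k hk
      apply Top_prod_num (s := s) hC (by positivity) (by exact_mod_cast hk) le_rfl hL hL' hLL
      · rw [zero_add, le_div_iff₀ elog]
        exact hcase.le
      · have := hprod k hk
        have := t2 k
        linarith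
    · intro h hh hhL
      have := triv h hh
      have e1 : (1 + c / 8 * 0 * Real.log h) * L = L := by ring
      rw [e1]
      exact this

/-- Theorem LL: one number `s` governs the growth of all sumsets and all product sets. -/
theorem topLL : ∃ c C : ℝ, 0 < c ∧ 0 < C ∧ ∀ A : Finset ℤ, 16 ≤ A.card →
    ∃ s : ℝ, 0 ≤ s ∧
      (∀ k : ℕ, 2 ≤ k → (A.card : ℝ) ^ k ≤ ((kprod A k).card : ℝ) *
        (A.card : ℝ) ^ (C * k * Real.log k * (s + 1 / Real.log (Real.log A.card)))) ∧
      ∀ h : ℕ, 1 ≤ h → (h : ℝ) ≤ Real.log A.card →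
        (A.card : ℝ) ^ (1 + c * s * Real.log h) ≤ ((hsum A h).card : ℝ) := by
  obtain ⟨c, C, hc, hC, hmain⟩ := Top_main
  refine ⟨c, C, hc, hC, ?_⟩
  intro A hA16
  obtain ⟨s, hs0, hprod, hsum'⟩ := hmain A hA16
  have hA : A.Nonempty := card_pos.1 (by omega)
  have pA : (0 : ℝ) < A.card := by exact_mod_cast card_pos.2 hA
  refine ⟨s, hs0, ?_, ?_⟩
  · intro k hk
    have pP : (0 : ℝ) < (kprod A k).card := by exact_mod_cast card_kprod_pos hA k
    have h1 := Real.exp_le_exp.2 (hprod k hk)
    rw [Real.exp_add, Real.exp_log pP] at h1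
    rw [← Real.rpow_natCast, Real.rpow_def_of_pos pA, Real.rpow_def_of_pos pA]
    rw [mul_comm (Real.log A.card) (k : ℝ), mul_comm (Real.log A.card)]
    exact h1
  · intro h hh hhL
    have pS : (0 : ℝ) < (hsum A h).card := by exact_mod_cast card_hsum_pos hA h
    have h1 := Real.exp_le_exp.2 (hsum' h hh hhL)
    rw [Real.exp_log pS] at h1
    rw [Real.rpow_def_of_pos pA, mul_comm (Real.log A.card)]
    exact h1

theorem Top_log_bounds {A : Finset ℤ} (hA16 : 16 ≤ A.card) :
    (2 : ℝ) < Real.log A.card ∧ 0 < Real.log (Real.log A.card) := by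
  have l2 := Real.log_two_gt_d9
  have h16 : Real.log 16 = 4 * Real.log 2 := by
    have : (16 : ℝ) = 2 ^ 4 := by norm_num
    rw [this, Real.log_pow]
    norm_num
  have h1 : Real.log 16 ≤ Real.log A.card := by
    apply Real.log_le_log (by norm_num)
    exact_mod_cast hA16
  have h2 : (2 : ℝ) < Real.log A.card := by linarith only [l2, h16, h1]
  exact ⟨h2, Real.log_pos (by linarith only [h2])⟩

/-- Elekes-Ruzsa for `k`-fold products. -/
theorem erLL : ∃ C : ℝ, 0 < C ∧ ∀ A : Finset ℤ, 16 ≤ A.card → ∀ k : ℕ, 2 ≤ k →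
    (A.card : ℝ) ^ k ≤ ((kprod A k).card : ℝ) *
      (((hsum A 2).card : ℝ) / A.card) ^ (C * k * Real.log k) *
      (A.card : ℝ) ^ (C * k * Real.log k / Real.log (Real.log A.card)) := by
  obtain ⟨c, C, hc, hC, hmain⟩ := Top_main
  have l2 := Real.log_two_gt_d9
  refine ⟨C + C / (c * Real.log 2), by positivity, ?_⟩
  intro A hA16 k hk
  obtain ⟨s, hs0, hprod, hsum'⟩ := hmain A hA16
  have hA : A.Nonempty := card_pos.1 (by omega)
  have pA : (0 : ℝ) < A.card := by exact_mod_cast card_pos.2 hA
  have pP : (0 : ℝ) < (kprod A k).card := by exact_mod_cast card_kprod_pos hA k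
  have pS : (0 : ℝ) < (hsum A 2).card := by exact_mod_cast card_hsum_pos hA 2
  obtain ⟨hL2, hLL⟩ := Top_log_bounds hA16
  have hk2 : (2 : ℝ) ≤ k := by exact_mod_cast hk
  have hlogk : 0 < Real.log k := Real.log_pos (by linarith only [hk2])
  have h2 := hsum' 2 (by norm_num) (by exact_mod_cast hL2.le)
  have h3 := hprod k hk
  obtain ⟨L, hL⟩ : ∃ L, L = Real.log A.card := ⟨_, rfl⟩
  rw [← hL] at hL2 hLL h2 h3 ⊢
  obtain ⟨D, hD⟩ : ∃ D, D = Real.log ((hsum A 2).card / A.card) := ⟨_, rfl⟩
  have hD1 : D = Real.log (hsum A 2).card - L := by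
    rw [hD, hL, Real.log_div pS.ne' pA.ne']
  have hD2 : c * Real.log 2 * (s * L) ≤ D := by
    rw [hD1]
    have e1 : (1 + c * s * Real.log ((2 : ℕ) : ℝ)) * L = L + c * Real.log 2 * (s * L) := by
      push_cast
      ring
    rw [e1] at h2
    linarith only [h2]
  have hL0 : 0 < L := by linarith only [hL2]
  have hD0 : 0 ≤ D := le_trans (by positivity) hD2
  have hD3 : s * L ≤ D / (c * Real.log 2) := by
    rw [le_div_iff₀ (by positivity)]
    linarith only [hD2]
  have hkey : k * L ≤ Real.log (kprod A k).card +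
      D * ((C + C / (c * Real.log 2)) * k * Real.log k) +
      L * ((C + C / (c * Real.log 2)) * k * Real.log k / Real.log L) := by
    have e1 : C * k * Real.log k * (s + 1 / Real.log L) * L =
        C * k * Real.log k * (s * L) + L * (C * k * Real.log k / Real.log L) := by ring
    rw [e1] at h3
    have e2 : C * k * Real.log k * (s * L) ≤ C * k * Real.log k * (D / (c * Real.log 2)) :=
      mul_le_mul_of_nonneg_left hD3 (by positivity)
    have e3 : D * ((C + C / (c * Real.log 2)) * k * Real.log k) =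
        C * k * Real.log k * (D / (c * Real.log 2)) + C * k * Real.log k * D := by ring
    have e4 : 0 ≤ C * k * Real.log k * D := by positivity
    have e5 : L * ((C + C / (c * Real.log 2)) * k * Real.log k / Real.log L) =
        L * (C * k * Real.log k / Real.log L) +
          L * (C / (c * Real.log 2) * k * Real.log k / Real.log L) := by ring
    have e6 : 0 ≤ L * (C / (c * Real.log 2) * k * Real.log k / Real.log L) := by positivity
    linarith only [h3, e2, e3, e4, e5, e6]
  have h4 := Real.exp_le_exp.2 hkey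
  rw [Real.exp_add, Real.exp_add, Real.exp_log pP] at h4
  rw [← Real.rpow_natCast, Real.rpow_def_of_pos pA, Real.rpow_def_of_pos pA,
    Real.rpow_def_of_pos (by positivity), ← hL, ← hD, mul_comm L (k : ℝ)]
  exact h4

/-- The fixed `k`, fixed `ε` form. -/
theorem fixLL : ∃ c : ℝ, 0 < c ∧ ∀ (k : ℕ) (ε : ℝ), 2 ≤ k → 0 < ε →
    ∃ C : ℕ → ℝ, (∀ n, 0 < C n) ∧ ∀ A : Finset ℤ, A.Nonempty →
      C 0 * (A.card : ℝ) ^ ((1 - ε) * k) ≤ ((kprod A k).card : ℝ) ∨
      ∀ h : ℕ, 1 ≤ h → C h * (A.card : ℝ) ^ (1 + c * (ε / Real.log k) * Real.log h) ≤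
        ((hsum A h).card : ℝ) := by
  obtain ⟨c, C, hc, hC, hmain⟩ := Top_main
  refine ⟨c / (2 * C), by positivity, ?_⟩
  intro k ε hk hε
  have hk2 : (2 : ℝ) ≤ k := by exact_mod_cast hk
  have hlogk : 0 < Real.log k := Real.log_pos (by linarith only [hk2])
  obtain ⟨e, he⟩ : ∃ e : ℕ → ℝ, ∀ h, e h = 1 + c / (2 * C) * (ε / Real.log k) * Real.log h :=
    ⟨_, fun _ => rfl⟩
  have he1 : ∀ h, 1 ≤ e h := by
    intro h
    have h1 : 0 ≤ Real.log (h : ℝ) := Real.log_natCast_nonneg h
    have h2 : 0 ≤ c / (2 * C) * (ε / Real.log k) * Real.log h := by positivity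
    rw [he]
    linarith only [h2]
  obtain ⟨L0, hL0⟩ : ∃ L0, L0 = Real.exp (2 * C * Real.log k / ε) := ⟨_, rfl⟩
  obtain ⟨M0, hM0⟩ : ∃ M0, M0 = 16 + Real.exp L0 := ⟨_, rfl⟩
  have hM1 : 1 ≤ M0 := by
    have := Real.exp_pos L0
    linarith only [hM0, this]
  have hM0' : 0 < M0 := by linarith only [hM1]
  refine ⟨fun n => if n = 0 then (M0 ^ k)⁻¹ else Real.exp (-(n * e n)), ?_, ?_⟩
  · intro n
    by_cases hn : n = 0
    · simp only [hn, if_true]
      positivity
    · simp only [hn, if_false]
      exact Real.exp_pos _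
  intro A hA
  have pA : (0 : ℝ) < A.card := by exact_mod_cast card_pos.2 hA
  have pA1 : (1 : ℝ) ≤ A.card := by exact_mod_cast card_pos.2 hA
  have pP : (0 : ℝ) < (kprod A k).card := by exact_mod_cast card_kprod_pos hA k
  have pP1 : (1 : ℝ) ≤ (kprod A k).card := by exact_mod_cast card_kprod_pos hA k
  have hC0 : (M0 ^ k)⁻¹ ≤ 1 := inv_le_one_of_one_le₀ (one_le_pow₀ hM1)
  by_cases hsmall : (A.card : ℝ) ≤ M0
  · left
    simp only [if_true]
    refine le_trans ?_ pP1
    rw [inv_mul_le_iff₀ (by positivity), mul_one]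
    calc (A.card : ℝ) ^ ((1 - ε) * k) ≤ (A.card : ℝ) ^ (k : ℝ) := by
          apply Real.rpow_le_rpow_of_exponent_le pA1
          nlinarith only [hε]
      _ = (A.card : ℝ) ^ k := Real.rpow_natCast _ _
      _ ≤ M0 ^ k := pow_le_pow_left₀ pA.le hsmall k
  push Not at hsmall
  have hA16 : 16 ≤ A.card := by
    have h1 : (16 : ℝ) < A.card := by
      have := Real.exp_pos L0
      linarith only [hM0, hsmall, this]
    have h2 : 16 < A.card := by exact_mod_cast h1
    omega
  obtain ⟨s, hs0, hprod, hsum'⟩ := hmain A hA16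
  obtain ⟨hL2, hLL⟩ := Top_log_bounds hA16
  obtain ⟨L, hL⟩ : ∃ L, L = Real.log A.card := ⟨_, rfl⟩
  rw [← hL] at hL2 hLL hprod hsum'
  have hLL0 : L0 ≤ L := by
    rw [hL, ← Real.log_exp L0]
    apply Real.log_le_log (Real.exp_pos _)
    linarith only [hM0, hsmall]
  have hlog : 2 * C * Real.log k / ε ≤ Real.log L := by
    rw [← Real.log_exp (2 * C * Real.log k / ε), ← hL0]
    apply Real.log_le_log _ hLL0
    rw [hL0]
    exact Real.exp_pos _
  have hinv : C * Real.log k * (1 / Real.log L) ≤ ε / 2 := by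
    rw [div_le_iff₀ hε] at hlog
    have : C * Real.log k * (1 / Real.log L) = C * Real.log k / Real.log L := by ring
    rw [this, div_le_iff₀ hLL]
    linarith only [hlog]
  by_cases hcase : C * Real.log k * s ≤ ε / 2
  · left
    simp only [if_true]
    have h1 := hprod k hk
    have h2 : C * k * Real.log k * (s + 1 / Real.log L) * L ≤ k * ε * L := by
      have e1 : C * k * Real.log k * (s + 1 / Real.log L) * L =
          k * (C * Real.log k * s + C * Real.log k * (1 / Real.log L)) * L := by ring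
      rw [e1]
      apply mul_le_mul_of_nonneg_right _ (by linarith only [hL2])
      apply mul_le_mul_of_nonneg_left _ (by positivity)
      linarith only [hinv, hcase]
    have h3 : L * ((1 - ε) * k) ≤ Real.log (kprod A k).card := by
      have e1 : L * ((1 - ε) * k) = k * L - k * ε * L := by ring
      rw [e1]
      linarith only [h1, h2]
    have h4 := Real.exp_le_exp.2 h3
    rw [Real.exp_log pP, hL, ← Real.rpow_def_of_pos pA] at h4
    calc (M0 ^ k)⁻¹ * (A.card : ℝ) ^ ((1 - ε) * k) ≤ 1 * (A.card : ℝ) ^ ((1 - ε) * k) :=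
          mul_le_mul_of_nonneg_right hC0 (by positivity)
      _ = (A.card : ℝ) ^ ((1 - ε) * k) := one_mul _
      _ ≤ _ := h4
  · right
    push Not at hcase
    intro h hh
    have hh0 : h ≠ 0 := by omega
    have hh1 : (1 : ℝ) ≤ h := by exact_mod_cast hh
    simp only [hh0, if_false]
    rw [← he h]
    have pS : (0 : ℝ) < (hsum A h).card := by exact_mod_cast card_hsum_pos hA h
    have pS1 : (1 : ℝ) ≤ (hsum A h).card := by exact_mod_cast card_hsum_pos hA h
    have hlogh : 0 ≤ Real.log h := Real.log_natCast_nonneg h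
    have hs1 : c / (2 * C) * (ε / Real.log k) ≤ c * s := by
      have e1 : c / (2 * C) * (ε / Real.log k) = c * ((ε / 2) / (C * Real.log k)) := by
        field_simp
      rw [e1]
      apply mul_le_mul_of_nonneg_left _ hc.le
      rw [div_le_iff₀ (by positivity)]
      linarith only [hcase]
    rw [Real.rpow_def_of_pos pA, ← hL, ← Real.exp_add]
    by_cases hhL : (h : ℝ) ≤ L
    · have h1 := hsum' h hh hhL
      rw [← Real.exp_log pS]
      apply Real.exp_le_exp.2
      have e1 : e h ≤ 1 + c * s * Real.log h := by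
        rw [he]
        have := mul_le_mul_of_nonneg_right hs1 hlogh
        linarith only [this]
      have e2 : L * e h ≤ (1 + c * s * Real.log h) * L := by
        rw [mul_comm L]
        exact mul_le_mul_of_nonneg_right e1 (by linarith only [hhL])
      have e3 : 0 ≤ (h : ℝ) * e h := by
        have := he1 h
        positivity
      linarith only [h1, e2, e3]
    · push Not at hhL
      refine le_trans ?_ pS1
      rw [← Real.exp_zero]
      apply Real.exp_le_exp.2
      have h1 := he1 h
      have h2 : L * e h ≤ h * e h := mul_le_mul_of_nonneg_right hhL.le (by linarith only [h1])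
      linarith only [h2]

end Pool.Agent.Helper80.LL
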