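import Pool.Agent.Helper24.ON.H80.LL.SumMain
import Pool.Agent.Helper24.ON.H80.LL.Prod
import Pool.Agent.Helper24.ON.H88.TL.Iter

set_option autoImplicit false

/-!
MP_120218_co, theorem LL: positive integers.
-/

open Finset
open Pool.Agent.Helper84.SP
open Pool.Agent.Helper88.TL

namespace Pool.Agent.Helper80.LL

theorem cnt_le {ps : List ℕ} (hnd : ps.Nodup) (K : ℕ) : (cnt K ps : ℝ) ≤ K + 1 := by
  classical
  have h1 : cnt K ps ≤ K + 1 := by
    unfold cnt
    have hnd' : (ps.filter (fun q => q ≤ K)).Nodup := hnd.filter _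
    rw [← List.toFinset_card_of_nodup hnd', ← card_range (K + 1)]
    apply card_le_card
    intro q hq
    rw [List.mem_toFinset, List.mem_filter] at hq
    rw [mem_range]
    have := of_decide_eq_true hq.2
    omega
  exact_mod_cast h1

/-- the sum half of `keyLL`, for an arbitrary list of different primes -/
theorem sumKey {A : Finset ℕ} (hA : A.Nonempty) (hpos : ∀ y ∈ A, 0 < y) {ps : List ℕ}
    (hprime : ∀ q ∈ ps, q.Prime) (hnd : ps.Nodup) {lam : ℝ} (h0 : 0 < lam) (h1 : lam ≤ 1)
    {j : ℕ} (hj : 1 ≤ j) :
    Psi ps A / A.card ≤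
      4 * W * (Real.log (it al A (2 * j)).card - Real.log (it al A j).card) +
        2 * lam * Real.log (it al A j).card +
        Real.log (576 / lam ^ 2) * ((Q0 (100 / lam) : ℝ) + 1) := by
  have hne := it_nonempty (α := al) hA j
  have hm := mainLL h0 h1 ps hprime A hA hpos (it al A j) (it al A j) hne hne
  have hI := I_it_le (α := al) hA hj
  have hd := dd_it_le (α := al) hA j
  have hW : (0 : ℝ) < W := by unfold W; norm_num
  have hG0 : 0 ≤ Real.log (576 / lam ^ 2) := by
    apply Real.log_nonneg
    rw [le_div_iff₀ (by positivity)]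
    nlinarith only [h0, h1]
  have e1 : W * (I al (it al A j) A + I al (it al A j) A + dd (it al A j) (it al A j)) ≤
      W * (4 * (Real.log (it al A (2 * j)).card - Real.log (it al A j).card)) := by
    apply mul_le_mul_of_nonneg_left _ hW.le
    linarith only [hI, hd]
  have e2 := mul_le_mul_of_nonneg_left (cnt_le hnd (Q0 (100 / lam))) hG0
  linarith

/-- the primes dividing an element of `A`: a list of different primes separating `A` -/
theorem exists_primes {A : Finset ℕ} (hpos : ∀ y ∈ A, 0 < y) :
    ∃ ps : List ℕ, (∀ q ∈ ps, q.Prime) ∧ ps.Nodup ∧ ∀ y ∈ A, ∀ y' ∈ A,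
      (∀ q ∈ ps, y.factorization q = y'.factorization q) → y = y' := by
  classical
  have hmem : ∀ q, q ∈ (A.biUnion Nat.primeFactors).toList ↔ ∃ y ∈ A, q ∈ y.primeFactors := by
    intro q
    rw [mem_toList, mem_biUnion]
  refine ⟨(A.biUnion Nat.primeFactors).toList, ?_, nodup_toList _, ?_⟩
  · intro q hq
    obtain ⟨y, _, hy⟩ := (hmem q).1 hq
    exact Nat.prime_of_mem_primeFactors hy
  · intro y hy y' hy' h
    apply Nat.eq_of_factorization_eq (hpos y hy).ne' (hpos y' hy').ne'
    intro q
    by_cases hq : q ∈ (A.biUnion Nat.primeFactors).toList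
    · exact h q hq
    · have e : ∀ z ∈ A, z.factorization q = 0 := by
        intro z hz
        have hz2 : q ∉ z.primeFactors := fun hqz => hq ((hmem q).2 ⟨z, hz, hqz⟩)
        rwa [← Nat.support_factorization, Finsupp.notMem_support_iff] at hz2
      rw [e y hy, e y' hy']

/-- one number `Φ` controls the products and the sums -/
theorem keyLL {A : Finset ℕ} (hA : A.Nonempty) (hpos : ∀ y ∈ A, 0 < y) :
    ∃ Φ : ℝ, 0 ≤ Φ ∧
      (∀ k : ℕ, 2 ≤ k → k * Real.log A.card - k * (2 * Real.log k + 7) * Φ ≤
        Real.log (it be A k).card) ∧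
      ∀ lam : ℝ, 0 < lam → lam ≤ 1 → ∀ j : ℕ, 1 ≤ j →
        Φ ≤ 4 * W * (Real.log (it al A (2 * j)).card - Real.log (it al A j).card) +
          2 * lam * Real.log (it al A j).card +
          Real.log (576 / lam ^ 2) * ((Q0 (100 / lam) : ℝ) + 1) := by
  obtain ⟨ps, hprime, hnd, hdet⟩ := exists_primes hpos
  refine ⟨Psi ps A / A.card, div_nonneg (Psi_nonneg ps A) (Nat.cast_nonneg _), ?_, ?_⟩
  · intro k hk
    exact prod_side hk hA hpos ps hdet
  · intro lam h0 h1 j hj
    exact sumKey hA hpos hprime hnd h0 h1 hj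

/-- the error term of the small primes, for the choice of `lam` in `posLL` -/
theorem Key_err {L s lam b m : ℝ} (hL : 2 ≤ L) (hs : 0 < s)
    (h1 : 16000 ≤ s * Real.log (2 + L)) (hb : b = 1 + m / 64000000 * s)
    (hm : m ≤ 3 * Real.log (2 + L)) (hlam : lam = s / (8 * b)) (hb0 : 1 ≤ b) :
    Real.log (576 / lam ^ 2) * ((Q0 (100 / lam) : ℝ) + 1) ≤ s * L / 4 := by
  obtain ⟨l, hl⟩ : ∃ l : ℝ, l = Real.log (2 + L) := ⟨_, rfl⟩
  rw [← hl] at h1 hm
  have hbp : 0 < b := by linarith only [hb0]
  have hl0 : 0 < l := by
    rw [hl]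
    exact Real.log_pos (by linarith only [hL])
  have hexp : Real.exp l = 2 + L := by
    rw [hl, Real.exp_log (by linarith only [hL])]
  have hlamp : 0 < lam := by rw [hlam]; positivity
  obtain ⟨B, hB⟩ : ∃ B : ℝ, B = 100 / lam := ⟨_, rfl⟩
  have hBp : 0 < B := by rw [hB]; positivity
  have hB2 : B = 800 / s + m * 800 / 64000000 := by
    rw [hB, hlam, hb]
    field_simp
    ring
  have hs1 : 800 / s ≤ l / 20 := by
    rw [div_le_iff₀ hs]
    linarith only [h1]
  have hBl : B ≤ l / 16 := by
    rw [hB2]
    linarith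
  rw [← hB]
  -- the logarithm
  have h24 : 24 / lam = 24 / 100 * B := by
    rw [hB]
    field_simp
  have hlog : Real.log (576 / lam ^ 2) ≤ l / 8 := by
    have h2 : (576 : ℝ) / lam ^ 2 = (24 / lam) ^ 2 := by
      rw [div_pow]
      norm_num
    have h3 : Real.log (24 / lam) ≤ 24 / lam - 1 :=
      Real.log_le_sub_one_of_pos (by positivity)
    rw [h2, Real.log_pow]
    push_cast
    linarith only [hBp, hBl, h24, h3]
  have hQ : (Q0 B : ℝ) + 1 ≤ 9 * Real.exp (2 * B) := by
    unfold Q0
    push_cast
    have h2 := Nat.ceil_lt_add_one (show 0 ≤ 6 * Real.exp (2 * B) by positivity)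
    have h3 : 1 ≤ Real.exp (2 * B) := Real.one_le_exp (by positivity)
    linarith only [h2, h3]
  have hE : Real.exp (2 * B) ≤ Real.exp (l / 8) := Real.exp_le_exp.2 (by linarith only [hBl])
  have hG : Real.log (576 / lam ^ 2) * ((Q0 B : ℝ) + 1) ≤ l / 8 * (9 * Real.exp (l / 8)) := by
    refine mul_le_mul hlog (by linarith only [hQ, hE]) (by positivity) (by positivity)
  refine hG.trans ?_
  -- `9 l exp (l / 8) / 8 ≤ s L / 4`
  have hq := Real.quadratic_le_exp_of_nonneg (show 0 ≤ l / 2 by positivity)
  have hq2 : l * l ≤ 8 * Real.exp (l / 2) := by linarith only [hBp, hBl, hq]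
  have h5 : l * l * Real.exp (l / 8) ≤ 8 * Real.exp l := by
    calc l * l * Real.exp (l / 8) ≤ 8 * Real.exp (l / 2) * Real.exp (l / 8) :=
          mul_le_mul_of_nonneg_right hq2 (Real.exp_pos _).le
      _ = 8 * Real.exp (l / 2 + l / 8) := by rw [Real.exp_add]; ring
      _ ≤ 8 * Real.exp l := by
          have : Real.exp (l / 2 + l / 8) ≤ Real.exp l := Real.exp_le_exp.2 (by linarith only [hBp, hBl])
          linarith only [this]
  rw [hexp] at h5
  have h6 : l * (l / 8 * (9 * Real.exp (l / 8))) ≤ l * (s * L / 4) := by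
    have h7 : 16000 * L ≤ s * l * L := mul_le_mul_of_nonneg_right h1 (by linarith only [hL])
    have e1 : l * (l / 8 * (9 * Real.exp (l / 8))) = 9 / 8 * (l * l * Real.exp (l / 8)) := by
      ring
    have e2 : l * (s * L / 4) = s * l * L / 4 := by ring
    rw [e1, e2]
    linarith only [hL, h5, h7]
  exact le_of_mul_le_mul_left h6 hl0

/-- positive integers, dyadic number of summands -/
theorem posLL : ∃ c C : ℝ, 0 < c ∧ 1 ≤ C ∧ ∀ A : Finset ℕ, 4 ≤ A.card → (∀ y ∈ A, 0 < y) →
    ∃ s : ℝ, 0 ≤ s ∧
      (∀ k : ℕ, 2 ≤ k → k * Real.log A.card ≤ Real.log (it be A k).card +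
        C * k * Real.log k * (s + 1 / Real.log (2 + Real.log A.card)) * Real.log A.card) ∧
      (s = 0 ∨ C ≤ s * Real.log (2 + Real.log A.card)) ∧
      ∀ n : ℕ, (2 : ℝ) ^ n ≤ (2 + Real.log A.card) ^ 2 →
        (1 + c * s * n) * Real.log A.card ≤ Real.log (it al A (2 ^ n)).card := by
  refine ⟨1 / 64000000 / 13, 13 * 16000, by norm_num, by norm_num, ?_⟩
  intro A hA4 hpos
  have hA : A.Nonempty := card_pos.1 (by omega)
  obtain ⟨Φ, hΦ0, hprod, hsum⟩ := keyLL hA hpos
  have hAc : (4 : ℝ) ≤ A.card := by exact_mod_cast hA4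
  obtain ⟨L, hL⟩ : ∃ L : ℝ, L = Real.log A.card := ⟨_, rfl⟩
  have hL1 : 1 < L := by
    rw [hL]
    have h2 : Real.log 4 ≤ Real.log A.card := Real.log_le_log (by norm_num) hAc
    have h3 : Real.log 4 = 2 * Real.log 2 := by
      rw [show (4 : ℝ) = 2 ^ 2 by norm_num, Real.log_pow]; norm_num
    have h4 := Real.log_two_gt_d9
    linarith only [h2, h3, h4]
  have hL0 : 0 < L := by linarith
  obtain ⟨l, hl⟩ : ∃ l : ℝ, l = Real.log (2 + L) := ⟨_, rfl⟩
  have hl0 : 0 < l := by
    rw [hl]
    exact Real.log_pos (by linarith only [hL0])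
  have hexp : Real.exp l = 2 + L := by
    rw [hl, Real.exp_log (by linarith only [hL0])]
  obtain ⟨s, hs⟩ : ∃ s : ℝ, s = min (Φ / L) 1 := ⟨_, rfl⟩
  have hs0 : 0 ≤ s := by
    rw [hs]
    exact le_min (by positivity) zero_le_one
  have hs1 : s ≤ 1 := by rw [hs]; exact min_le_right _ _
  have hsΦ : s * L ≤ Φ := by
    have h2 : s ≤ Φ / L := by rw [hs]; exact min_le_left _ _
    rwa [le_div_iff₀ hL0] at h2
  rw [← hL, ← hl]
  simp only [← hL] at hprod
  -- the products
  have hP : ∀ k : ℕ, 2 ≤ k →
      k * L ≤ Real.log (it be A k).card + k * Real.log k * (13 * s) * L := by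
    intro k hk
    have hk2 : (2 : ℝ) ≤ k := by exact_mod_cast hk
    have hlk : Real.log 2 ≤ Real.log k := Real.log_le_log (by norm_num) hk2
    have hl2 := Real.log_two_gt_d9
    have hk0 : (0 : ℝ) < k := by linarith only [hk2]
    rcases le_total (Φ / L) 1 with h | h
    · have hsL : s * L = Φ := by
        rw [hs, min_eq_left h]
        field_simp
      have h2 := hprod k hk
      have h3 : (2 * Real.log k + 7) * Φ ≤ 13 * Real.log k * Φ :=
        mul_le_mul_of_nonneg_right (by linarith only [hlk, hl2]) hΦ0
      have h4 := mul_le_mul_of_nonneg_left h3 hk0.le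
      rw [← hsL] at h2 h4
      linarith only [h2, h4]
    · have hse : s = 1 := by rw [hs, min_eq_right h]
      have h2 : 0 ≤ Real.log (it be A k).card := Real.log_natCast_nonneg _
      have h3 : 1 ≤ Real.log k * 13 := by linarith only [hlk, hl2]
      have h4 := mul_le_mul_of_nonneg_left h3 (show (0 : ℝ) ≤ k * L by positivity)
      rw [hse]
      linarith only [h2, h4]
  rcases lt_or_ge (s * l) 16000 with hcase | hcase
  · -- no information on the sums
    refine ⟨0, le_refl _, ?_, Or.inl rfl, ?_⟩
    · intro k hk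
      have hk2 : (2 : ℝ) ≤ k := by exact_mod_cast hk
      have hlk : 0 ≤ Real.log k := Real.log_natCast_nonneg _
      have h2 := hP k hk
      have h3 : 13 * s ≤ 13 * 16000 * (0 + 1 / l) := by
        have h4 : s ≤ 16000 / l := by
          rw [le_div_iff₀ hl0]
          exact hcase.le
        have h5 : 13 * 16000 * (0 + 1 / l) = 13 * (16000 / l) := by ring
        rw [h5]
        linarith only [h4]
      have h4 := mul_le_mul_of_nonneg_left h3 (show 0 ≤ k * Real.log k * L by positivity)
      linarith only [h2, h4]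
    · intro n _
      have h2 := it_card_ge (α := al) hA (fun a _ b _ h => by
        have h3 : (a : ℤ) = b := h
        exact_mod_cast h3) (Nat.one_le_two_pow (n := n))
      have h3 : L ≤ Real.log (it al A (2 ^ n)).card := by
        rw [hL]
        exact Real.log_le_log (by linarith only [hAc]) (by exact_mod_cast h2)
      linarith only [h3]
  · -- the sums grow
    have hsp : 0 < s := by
      rcases hs0.lt_or_eq with h | h
      · exact h
      · rw [← h, zero_mul] at hcase
        linarith only [hcase]
    have hl16 : 16000 ≤ l := by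
      have : s * l ≤ 1 * l := mul_le_mul_of_nonneg_right hs1 hl0.le
      linarith
    have hL2 : 2 ≤ L := by
      have := Real.add_one_le_exp l
      linarith only [hexp, hl16, this]
    refine ⟨13 * s, by positivity, ?_, Or.inr (by linarith only [hcase]), ?_⟩
    · intro k hk
      have hk2 : (2 : ℝ) ≤ k := by exact_mod_cast hk
      have hlk : 0 ≤ Real.log k := Real.log_natCast_nonneg _
      have h2 := hP k hk
      have h3 : 13 * s ≤ 13 * 16000 * (13 * s + 1 / l) := by
        have : 0 < 1 / l := by positivity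
        linarith only [hsp, this]
      have h4 := mul_le_mul_of_nonneg_left h3 (show 0 ≤ k * Real.log k * L by positivity)
      linarith only [h2, h4]
    · intro n hn
      have hnl : (n : ℝ) ≤ 3 * l := by
        have h2 : Real.log ((2 : ℝ) ^ n) ≤ Real.log ((2 + L) ^ 2) :=
          Real.log_le_log (by positivity) hn
        rw [Real.log_pow, Real.log_pow, ← hl] at h2
        push_cast at h2
        have h3 := Real.log_two_gt_d9
        have h4 : (n : ℝ) * (2 / 3) ≤ n * Real.log 2 :=
          mul_le_mul_of_nonneg_left (by linarith only [h3]) (Nat.cast_nonneg n)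
        linarith only [h2, h4]
      obtain ⟨b, hb⟩ : ∃ b : ℝ, b = 1 + n / 64000000 * s := ⟨_, rfl⟩
      have hb1 : 1 ≤ b := by
        rw [hb]
        have : 0 ≤ (n : ℝ) / 64000000 * s := by positivity
        linarith only [this]
      have hbp : 0 < b := by linarith only [hb1]
      have hgoal : 1 + 1 / 64000000 / 13 * (13 * s) * (n : ℝ) = b := by
        rw [hb]
        ring
      rw [hgoal]
      by_contra hcon
      push Not at hcon
      obtain ⟨lam, hlam⟩ : ∃ lam : ℝ, lam = s / (8 * b) := ⟨_, rfl⟩
      have hlam0 : 0 < lam := by rw [hlam]; positivity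
      have hlam1 : lam ≤ 1 := by
        rw [hlam, div_le_one (by positivity)]
        linarith only [hs1, hb1]
      have herr := Key_err hL2 hsp (by rw [← hl]; exact hcase) hb (by rw [← hl]; exact hnl)
        hlam hb1
      have hmono : ∀ i, i ≤ n → Real.log (it al A (2 ^ i)).card ≤ b * L := by
        intro i hi
        have h2 := it_mono (α := al) hA (Nat.pow_le_pow_right (n := 2) (by norm_num) hi)
        have h3 : 0 < (it al A (2 ^ i)).card := card_pos.2 (it_nonempty hA _)
        have h4 : Real.log (it al A (2 ^ i)).card ≤ Real.log (it al A (2 ^ n)).card :=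
          Real.log_le_log (by exact_mod_cast h3) (by exact_mod_cast h2)
        linarith only [hcon, h4]
      have hstep : ∀ i, i < n → s * L / 64000000 ≤
          Real.log (it al A (2 ^ (i + 1))).card - Real.log (it al A (2 ^ i)).card := by
        intro i hi
        have h2 := hsum lam hlam0 hlam1 (2 ^ i) Nat.one_le_two_pow
        have h3 : 2 * lam * Real.log (it al A (2 ^ i)).card ≤ s * L / 4 := by
          have h4 : 2 * lam * Real.log (it al A (2 ^ i)).card ≤ 2 * lam * (b * L) :=
            mul_le_mul_of_nonneg_left (hmono i hi.le) (by positivity)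
          have h5 : 2 * lam * (b * L) = s * L / 4 := by
            rw [hlam]
            field_simp
            ring
          linarith only [h4, h5]
        have h6 : 2 * 2 ^ i = 2 ^ (i + 1) := by rw [pow_succ]; ring
        rw [h6] at h2
        unfold W at h2
        linarith only [hsΦ, herr, h2, h3]
      have hind : ∀ i, i ≤ n → L + i * (s * L / 64000000) ≤
          Real.log (it al A (2 ^ i)).card := by
        intro i
        induction i with
        | zero =>
          intro _
          have h2 := it_card_ge (α := al) hA (fun a _ b _ h => by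
            have h3 : (a : ℤ) = b := h
            exact_mod_cast h3) (Nat.one_le_two_pow (n := 0))
          have h3 : L ≤ Real.log (it al A (2 ^ 0)).card := by
            rw [hL]
            exact Real.log_le_log (by linarith only [hAc]) (by exact_mod_cast h2)
          simp only [Nat.cast_zero, zero_mul, add_zero]
          exact h3
        | succ i ih =>
          intro hi
          have h2 := ih (by omega)
          have h3 := hstep i (by omega)
          push_cast
          linarith only [h2, h3]
      have h2 := hind n le_rfl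
      have h3 : b * L = L + n * (s * L / 64000000) := by
        rw [hb]
        ring
      linarith only [hcon, h2, h3]

end Pool.Agent.Helper80.LL
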